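import Pool.Agent.H34.FS.Targets

set_option autoImplicit false

open Finset Pool.Agent.H32.RQ Pool.Agent.H34.FQ

namespace Pool.Agent.H31.HFS

open Pool.Agent.H34.FS

theorem cv_zero' {r : ℕ} (c : ℤ) (x : Fin r → ℤ) : cv c x 0 = c := rfl

theorem cv_succ' {r : ℕ} (c : ℤ) (x : Fin r → ℤ) (i : Fin r) : cv c x i.succ = x i := by
  simp [cv]

/-- the error at `p` -/
noncomputable def ep (Q : ℕ) [NeZero Q] {n : ℕ} (z z' : Fin n → ℤ) (q : ZMod Q × ZMod Q)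
    (p : Fin n) : ℤ := (q.1 * (z p : ZMod Q) + q.2 * (z' p : ZMod Q)).valMinAbs

theorem mq_spec (Q : ℕ) [NeZero Q] {n : ℕ} (z z' : Fin n → ℤ) (q : ZMod Q × ZMod Q) (p : Fin n) :
    q.1.valMinAbs * z p + q.2.valMinAbs * z' p = Q * mq Q z z' q p + ep Q z z' q p := by
  have h : (Q : ℤ) ∣ q.1.valMinAbs * z p + q.2.valMinAbs * z' p - ep Q z z' q p := by
    rw [← ZMod.intCast_zmod_eq_zero_iff_dvd]
    simp only [ep, Int.cast_sub, Int.cast_add, Int.cast_mul, ZMod.coe_valMinAbs, sub_self]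
  have h2 := Int.mul_ediv_cancel' h
  have h3 : mq Q z z' q p =
      (q.1.valMinAbs * z p + q.2.valMinAbs * z' p - ep Q z z' q p) / Q := rfl
  rw [h3]
  linarith

theorem two_abs_le (Q : ℕ) [NeZero Q] (a : ZMod Q) : 2 * |a.valMinAbs| ≤ (Q : ℤ) := by
  have h := ZMod.natAbs_valMinAbs_le a
  rw [Int.abs_eq_natAbs]
  omega

theorem cv_abs {r : ℕ} {c B : ℕ} {x : Fin r → ℤ} (hc : c ≤ B) (hx : ∀ i, |x i| ≤ B)
    (p : Fin (r + 1)) : |cv (c : ℤ) x p| ≤ B := by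
  refine Fin.cases ?_ (fun i => ?_) p
  · rw [cv_zero', Nat.abs_cast]
    exact_mod_cast hc
  · rw [cv_succ']
    exact hx i

theorem abs_mul_le' {a b s t : ℤ} (ha : |a| ≤ s) (hb : |b| ≤ t) : |a * b| ≤ s * t := by
  rw [abs_mul]
  exact mul_le_mul ha hb (abs_nonneg _) ((abs_nonneg _).trans ha)

theorem mnr_le_dm {s : ℕ} (x y : Fin s → ℤ) (i j : Fin s) : |mnr x y i j| ≤ (dm x y : ℤ) := by
  have h : (mnr x y i j).natAbs ≤ dm x y :=
    Finset.le_sup (f := fun p : Fin s × Fin s => (mnr x y p.1 p.2).natAbs)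
      (Finset.mem_univ (i, j))
  rw [Int.abs_eq_natAbs]
  exact_mod_cast h

section

variable {r c B A J Q D : ℕ} [NeZero Q] {x y : Fin r → ℤ}

/-- the vector `w` -/
noncomputable def ww (Q c : ℕ) [NeZero Q] (x y : Fin r → ℤ) (q : ZMod Q × ZMod Q)
    (i : Fin r) : ℤ :=
  c * mq Q (cv (c : ℤ) x) (cv (c : ℤ) y) q i.succ - mq Q (cv (c : ℤ) x) (cv (c : ℤ) y) q 0 * y i

theorem ww_eq (q : ZMod Q × ZMod Q) (i : Fin r) :
    (Q : ℤ) * ww Q c x y q i = c * q.1.valMinAbs * (x i - y i) +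
      (ep Q (cv (c : ℤ) x) (cv (c : ℤ) y) q 0 * y i -
        c * ep Q (cv (c : ℤ) x) (cv (c : ℤ) y) q i.succ) := by
  have h1 := mq_spec Q (cv (c : ℤ) x) (cv (c : ℤ) y) q i.succ
  have h0 := mq_spec Q (cv (c : ℤ) x) (cv (c : ℤ) y) q 0
  rw [cv_succ', cv_succ'] at h1
  rw [cv_zero', cv_zero'] at h0
  rw [ww]
  linear_combination (-(c : ℤ)) * h1 + y i * h0

theorem m0_le (hJ : 1 ≤ J) (hA : 1 ≤ A) (hQ : Q = 2 * A * J) (q : ZMod Q × ZMod Q)
    (he : ∀ p, |ep Q (cv (c : ℤ) x) (cv (c : ℤ) y) q p| < (J : ℤ)) :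
    |mq Q (cv (c : ℤ) x) (cv (c : ℤ) y) q 0| ≤ c := by
  have h0 := mq_spec Q (cv (c : ℤ) x) (cv (c : ℤ) y) q 0
  rw [cv_zero', cv_zero'] at h0
  have hj := two_abs_le Q q.1
  have hk := two_abs_le Q q.2
  have he0 := he 0
  have hQ0 : (0 : ℤ) < Q := by
    have := NeZero.pos Q
    exact_mod_cast this
  have hJQ : (J : ℤ) ≤ Q := by
    rw [hQ]
    have : J ≤ 2 * A * J := Nat.le_mul_of_pos_left J (by omega)
    exact_mod_cast this
  set m := mq Q (cv (c : ℤ) x) (cv (c : ℤ) y) q 0 with hm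
  have h1 : |(Q : ℤ) * m| < (c + 1) * Q := by
    have e : (Q : ℤ) * m = c * (q.1.valMinAbs + q.2.valMinAbs) -
        ep Q (cv (c : ℤ) x) (cv (c : ℤ) y) q 0 := by linarith
    rw [e]
    have h2 : |(c : ℤ) * (q.1.valMinAbs + q.2.valMinAbs)| ≤ c * Q := by
      rw [abs_mul, Nat.abs_cast]
      refine mul_le_mul_of_nonneg_left ?_ (Nat.cast_nonneg _)
      have := abs_add_le q.1.valMinAbs q.2.valMinAbs
      linarith
    have h3 := abs_sub (c * (q.1.valMinAbs + q.2.valMinAbs) : ℤ)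
      (ep Q (cv (c : ℤ) x) (cv (c : ℤ) y) q 0)
    nlinarith
  rw [abs_mul, Nat.abs_cast] at h1
  have h4 : |m| < c + 1 := by
    by_contra h5
    push Not at h5
    nlinarith
  linarith

theorem R_le (hc : c ≤ B) (hy : ∀ i, |y i| ≤ B) (q : ZMod Q × ZMod Q)
    (he : ∀ p, |ep Q (cv (c : ℤ) x) (cv (c : ℤ) y) q p| < (J : ℤ)) (i : Fin r) :
    |ep Q (cv (c : ℤ) x) (cv (c : ℤ) y) q 0 * y i -
      c * ep Q (cv (c : ℤ) x) (cv (c : ℤ) y) q i.succ| ≤ 2 * B * J := by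
  have h1 := abs_mul_le' (he 0).le (hy i)
  have h2 : |(c : ℤ) * ep Q (cv (c : ℤ) x) (cv (c : ℤ) y) q i.succ| ≤ B * J :=
    abs_mul_le' (by rw [Nat.abs_cast]; exact_mod_cast hc) (he i.succ).le
  have h3 := abs_sub (ep Q (cv (c : ℤ) x) (cv (c : ℤ) y) q 0 * y i)
    (c * ep Q (cv (c : ℤ) x) (cv (c : ℤ) y) q i.succ)
  linarith

theorem v_le (hx : ∀ i, |x i| ≤ (B : ℤ)) (hy : ∀ i, |y i| ≤ (B : ℤ)) (i : Fin r) :
    |x i - y i| ≤ 2 * B := by
  have := abs_sub (x i) (y i)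
  linarith [hx i, hy i]

theorem w_le (hA : 1 ≤ A) (hBA : B ≤ A) (hc : c ≤ B) (hQ : Q = 2 * A * J)
    (hy : ∀ i, |y i| ≤ (B : ℤ)) (q : ZMod Q × ZMod Q)
    (he : ∀ p, |ep Q (cv (c : ℤ) x) (cv (c : ℤ) y) q p| < (J : ℤ)) (i : Fin r) :
    |ww Q c x y q i| ≤ c * |x i - y i| + 1 := by
  have hQ0 : (0 : ℤ) < Q := by
    have := NeZero.pos Q
    exact_mod_cast this
  have h1 := ww_eq (c := c) (x := x) (y := y) q i
  have h2 := R_le hc hy q he i
  have h3 : |(Q : ℤ) * ww Q c x y q i| ≤ c * |q.1.valMinAbs| * |x i - y i| + 2 * B * J := by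
    rw [h1]
    refine (abs_add_le _ _).trans ?_
    have : |(c : ℤ) * q.1.valMinAbs * (x i - y i)| = c * |q.1.valMinAbs| * |x i - y i| := by
      rw [abs_mul, abs_mul, Nat.abs_cast]
    linarith
  rw [abs_mul, Nat.abs_cast] at h3
  have h4 := two_abs_le Q q.1
  have h5 : (B : ℤ) * J ≤ A * J :=
    mul_le_mul_of_nonneg_right (by exact_mod_cast hBA) (Nat.cast_nonneg _)
  have hQ' : (Q : ℤ) = 2 * A * J := by exact_mod_cast hQ
  have h6 : (c : ℤ) * (2 * |q.1.valMinAbs|) * |x i - y i| ≤ c * Q * |x i - y i| :=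
    mul_le_mul_of_nonneg_right (mul_le_mul_of_nonneg_left h4 (Nat.cast_nonneg _))
      (abs_nonneg _)
  have h7 : (Q : ℤ) * (2 * |ww Q c x y q i|) ≤ Q * (c * |x i - y i| + 2) := by
    nlinarith
  have h8 := le_of_mul_le_mul_left h7 hQ0
  have h9 : 0 ≤ (c : ℤ) * |x i - y i| := mul_nonneg (Nat.cast_nonneg _) (abs_nonneg _)
  linarith

theorem mnr_eq (q : ZMod Q × ZMod Q) (i j : Fin r) :
    (Q : ℤ) * mnr (fun i => x i - y i) (ww Q c x y q) i j =
      (x i - y i) * (ep Q (cv (c : ℤ) x) (cv (c : ℤ) y) q 0 * y j -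
        c * ep Q (cv (c : ℤ) x) (cv (c : ℤ) y) q j.succ) -
      (x j - y j) * (ep Q (cv (c : ℤ) x) (cv (c : ℤ) y) q 0 * y i -
        c * ep Q (cv (c : ℤ) x) (cv (c : ℤ) y) q i.succ) := by
  have hi := ww_eq (c := c) (x := x) (y := y) q i
  have hj := ww_eq (c := c) (x := x) (y := y) q j
  rw [mnr]
  linear_combination (x i - y i) * hj - (x j - y j) * hi

theorem mnr_le (hA : 1 ≤ A) (hc1 : 1 ≤ c) (hc : c ≤ B) (hQ : Q = 2 * A * J)
    (hD : 6 * c * B ^ 2 ≤ D * A)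
    (hx : ∀ i, |x i| ≤ (B : ℤ)) (hy : ∀ i, |y i| ≤ (B : ℤ)) (q : ZMod Q × ZMod Q)
    (he : ∀ p, |ep Q (cv (c : ℤ) x) (cv (c : ℤ) y) q p| < (J : ℤ)) (i j : Fin r) :
    |mnr (fun i => x i - y i) (ww Q c x y q) i j| ≤ D := by
  have hQ0 : (0 : ℤ) < Q := by
    have := NeZero.pos Q
    exact_mod_cast this
  have h1 := mnr_eq (c := c) (x := x) (y := y) q i j
  have h2 := abs_mul_le' (v_le hx hy i) (R_le hc hy q he j)
  have h3 := abs_mul_le' (v_le hx hy j) (R_le hc hy q he i)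
  have h4 : |(Q : ℤ) * mnr (fun i => x i - y i) (ww Q c x y q) i j| ≤
      2 * (2 * B * (2 * B * J)) := by
    rw [h1]
    refine (abs_sub _ _).trans ?_
    linarith
  rw [abs_mul, Nat.abs_cast] at h4
  have hQ' : (Q : ℤ) = 2 * A * J := by exact_mod_cast hQ
  have hD' : (6 : ℤ) * c * B ^ 2 ≤ D * A := by exact_mod_cast hD
  have hc' : (1 : ℤ) ≤ c := by exact_mod_cast hc1
  have hJ0 : (0 : ℤ) ≤ J := Nat.cast_nonneg _
  have h5 : (6 : ℤ) * B ^ 2 ≤ D * A := by nlinarith [sq_nonneg (B : ℤ)]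
  have h6 : (6 : ℤ) * B ^ 2 * J ≤ D * A * J := mul_le_mul_of_nonneg_right h5 hJ0
  have h7 : 0 ≤ (B : ℤ) ^ 2 * J := by positivity
  refine le_of_mul_le_mul_left (a := (Q : ℤ)) ?_ hQ0
  nlinarith

theorem d3_eq (q : ZMod Q × ZMod Q) (i j k : Fin r) :
    (Q : ℤ) * d3 (fun i => x i - y i) (ww Q c x y q) y i j k =
      -(c * d3 (fun i => x i - y i)
        (fun i => ep Q (cv (c : ℤ) x) (cv (c : ℤ) y) q i.succ) y i j k) := by
  have hi := ww_eq (c := c) (x := x) (y := y) q i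
  have hj := ww_eq (c := c) (x := x) (y := y) q j
  have hk := ww_eq (c := c) (x := x) (y := y) q k
  simp only [d3]
  linear_combination ((x k - y k) * y j - (x j - y j) * y k) * hi +
    ((x i - y i) * y k - (x k - y k) * y i) * hj +
    ((x j - y j) * y i - (x i - y i) * y j) * hk

theorem d3_le (hA : 1 ≤ A) (hc : c ≤ B) (hQ : Q = 2 * A * J)
    (hD : 6 * c * B ^ 2 ≤ D * A)
    (hx : ∀ i, |x i| ≤ (B : ℤ)) (hy : ∀ i, |y i| ≤ (B : ℤ)) (q : ZMod Q × ZMod Q)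
    (he : ∀ p, |ep Q (cv (c : ℤ) x) (cv (c : ℤ) y) q p| < (J : ℤ)) (i j k : Fin r) :
    |d3 (fun i => x i - y i) (ww Q c x y q) y i j k| ≤ D := by
  have hQ0 : (0 : ℤ) < Q := by
    have := NeZero.pos Q
    exact_mod_cast this
  have h1 := d3_eq (c := c) (x := x) (y := y) q i j k
  have key : ∀ a b d : Fin r, |(x a - y a) *
      (ep Q (cv (c : ℤ) x) (cv (c : ℤ) y) q b.succ * y d)| ≤ 2 * B * (J * B) := fun a b d =>
    abs_mul_le' (v_le hx hy a) (abs_mul_le' (he b.succ).le (hy d))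
  have h2 : |d3 (fun i => x i - y i)
        (fun i => ep Q (cv (c : ℤ) x) (cv (c : ℤ) y) q i.succ) y i j k| ≤
      6 * (2 * B * (J * B)) := by
    have k1 := abs_le.1 (key i j k)
    have k2 := abs_le.1 (key i k j)
    have k3 := abs_le.1 (key j i k)
    have k4 := abs_le.1 (key j k i)
    have k5 := abs_le.1 (key k i j)
    have k6 := abs_le.1 (key k j i)
    rw [abs_le]
    simp only [d3]
    constructor <;> linarith [k1.1, k1.2, k2.1, k2.2, k3.1, k3.2, k4.1, k4.2, k5.1, k5.2, k6.1,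
      k6.2]
  have h4 : |(Q : ℤ) * d3 (fun i => x i - y i) (ww Q c x y q) y i j k| ≤
      c * (6 * (2 * B * (J * B))) := by
    rw [h1, abs_neg, abs_mul, Nat.abs_cast]
    exact mul_le_mul_of_nonneg_left h2 (Nat.cast_nonneg _)
  rw [abs_mul, Nat.abs_cast] at h4
  have hQ' : (Q : ℤ) = 2 * A * J := by exact_mod_cast hQ
  have hD' : (6 : ℤ) * c * B ^ 2 ≤ D * A := by exact_mod_cast hD
  have hJ0 : (0 : ℤ) ≤ J := Nat.cast_nonneg _
  have h6 : (6 : ℤ) * c * B ^ 2 * J ≤ D * A * J := mul_le_mul_of_nonneg_right hD' hJ0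
  refine le_of_mul_le_mul_left (a := (Q : ℤ)) ?_ hQ0
  rw [hQ'] at h4 ⊢
  nlinarith

theorem dm_ge (hA : 1 ≤ A) (hQ : Q = 2 * A * J) (q : ZMod Q × ZMod Q)
    (he : ∀ p, |ep Q (cv (c : ℤ) x) (cv (c : ℤ) y) q p| < (J : ℤ)) (i j : Fin r)
    (hm : mnr (fun i => x i - y i) (ww Q c x y q) i j ≠ 0) :
    2 * (A : ℤ) ≤ 3 * dm (cv (c : ℤ) x) (cv (c : ℤ) y) := by
  have hQ0 : (0 : ℤ) < Q := by
    have := NeZero.pos Q
    exact_mod_cast this
  have h1 := mnr_eq (c := c) (x := x) (y := y) q i j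
  have a1 := mnr_le_dm (cv (c : ℤ) x) (cv (c : ℤ) y) i.succ j.succ
  have a2 := mnr_le_dm (cv (c : ℤ) x) (cv (c : ℤ) y) i.succ 0
  have a3 := mnr_le_dm (cv (c : ℤ) x) (cv (c : ℤ) y) j.succ 0
  have b1 := abs_mul_le' a1 (he 0).le
  have b2 := abs_mul_le' a2 (he j.succ).le
  have b3 := abs_mul_le' a3 (he i.succ).le
  have h2 : (Q : ℤ) * mnr (fun i => x i - y i) (ww Q c x y q) i j =
      mnr (cv (c : ℤ) x) (cv (c : ℤ) y) i.succ j.succ *
        ep Q (cv (c : ℤ) x) (cv (c : ℤ) y) q 0 -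
      mnr (cv (c : ℤ) x) (cv (c : ℤ) y) i.succ 0 *
        ep Q (cv (c : ℤ) x) (cv (c : ℤ) y) q j.succ +
      mnr (cv (c : ℤ) x) (cv (c : ℤ) y) j.succ 0 *
        ep Q (cv (c : ℤ) x) (cv (c : ℤ) y) q i.succ := by
    rw [h1]
    simp only [mnr, cv_succ', cv_zero']
    ring
  have h3 : |(Q : ℤ) * mnr (fun i => x i - y i) (ww Q c x y q) i j| ≤
      3 * (dm (cv (c : ℤ) x) (cv (c : ℤ) y) * J) := by
    rw [h2]
    have k1 := abs_le.1 b1
    have k2 := abs_le.1 b2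
    have k3 := abs_le.1 b3
    rw [abs_le]
    constructor <;> linarith [k1.1, k1.2, k2.1, k2.2, k3.1, k3.2]
  rw [abs_mul, Nat.abs_cast] at h3
  have h4 : (1 : ℤ) ≤ |mnr (fun i => x i - y i) (ww Q c x y q) i j| := Int.one_le_abs hm
  have h5 : (Q : ℤ) ≤ 3 * (dm (cv (c : ℤ) x) (cv (c : ℤ) y) * J) := by nlinarith
  have hQ' : (Q : ℤ) = 2 * A * J := by exact_mod_cast hQ
  have hJ : (0 : ℤ) < J := lt_of_le_of_lt (abs_nonneg _) (he 0)
  rw [hQ'] at h5
  refine le_of_mul_le_mul_right (a := (J : ℤ)) ?_ hJ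
  linarith

theorem span_of_mnr (hc1 : 1 ≤ c) (hxy : x ≠ y) (q : ZMod Q × ZMod Q)
    (h : ∀ i j, mnr (fun i => x i - y i) (ww Q c x y q) i j = 0) :
    ∃ α β : ℚ, ∀ p, (mq Q (cv (c : ℤ) x) (cv (c : ℤ) y) q p : ℚ) =
      α * (cv (c : ℤ) x p : ℤ) + β * (cv (c : ℤ) y p : ℤ) := by
  obtain ⟨i₀, hi₀⟩ : ∃ i, x i ≠ y i := by
    by_contra h'
    push Not at h'
    exact hxy (funext h')
  have hv : ((x i₀ : ℚ) - y i₀) ≠ 0 := by
    rw [sub_ne_zero]
    exact_mod_cast hi₀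
  have hcq : (c : ℚ) ≠ 0 := by
    have : 0 < c := hc1
    exact_mod_cast this.ne'
  set m := mq Q (cv (c : ℤ) x) (cv (c : ℤ) y) q with hm
  set ρ : ℚ := (ww Q c x y q i₀ : ℚ) / ((x i₀ : ℚ) - y i₀) with hρ
  have hw : ∀ i, (ww Q c x y q i : ℚ) = ρ * ((x i : ℚ) - y i) := by
    intro i
    have h1 := h i₀ i
    rw [mnr] at h1
    have h2 : ((x i₀ : ℚ) - y i₀) * ww Q c x y q i - ((x i : ℚ) - y i) * ww Q c x y q i₀ = 0 := by
      exact_mod_cast h1
    rw [hρ, div_mul_eq_mul_div, eq_div_iff hv]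
    linarith
  refine ⟨ρ / c, ((m 0 : ℚ) - ρ) / c, fun p => ?_⟩
  refine Fin.cases ?_ (fun i => ?_) p
  · rw [cv_zero', cv_zero']
    push_cast
    field_simp
    ring
  · rw [cv_succ', cv_succ']
    have h1 := hw i
    have h2 : (ww Q c x y q i : ℚ) = c * m i.succ - m 0 * y i := by
      rw [ww]
      push_cast
      rfl
    rw [h2] at h1
    field_simp
    linarith

end

theorem pf_UNC (hCNT : T_CNT) : T_UNC := by
  intro r c B A J Q D _ x y hc1 hA hBA hcB hJ hQ hD hxy hx hy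
  classical
  set z := cv (c : ℤ) x with hz
  set z' := cv (c : ℤ) y with hz'
  set S := zu Q J z z' with hS
  set T := TW c B D (fun i => x i - y i) y with hT
  have hJ1 : 1 ≤ J := by
    have hB1 : 1 ≤ B := hc1.trans hcB
    nlinarith
  rcases S.eq_empty_or_nonempty with hemp | ⟨q₀, hq₀⟩
  · rw [hemp, Finset.card_empty]
    push_cast
    rw [zero_mul]
    positivity
  -- members
  have mem : ∀ q ∈ S, (∀ p, |ep Q z z' q p| < (J : ℤ)) ∧
      ¬ ∃ α β : ℚ, ∀ p, (mq Q z z' q p : ℚ) = α * z p + β * z' p := by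
    intro q hq
    rw [hS, zu, Finset.mem_filter, zl, Finset.mem_filter] at hq
    exact ⟨hq.1.2, hq.2⟩
  have nz : ∀ q ∈ S, ∃ i j, mnr (fun i => x i - y i) (ww Q c x y q) i j ≠ 0 := by
    intro q hq
    by_contra h'
    push Not at h'
    exact (mem q hq).2 (span_of_mnr hc1 hxy q h')
  have hdm : 2 * (A : ℤ) ≤ 3 * dm z z' := by
    obtain ⟨i, j, hij⟩ := nz q₀ hq₀
    exact dm_ge hA hQ q₀ (mem q₀ hq₀).1 i j hij
  have hdm1 : 1 ≤ dm z z' := by
    by_contra h'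
    have : dm z z' = 0 := by omega
    rw [this] at hdm
    push_cast at hdm
    omega
  obtain ⟨pp, -, hpp⟩ := Finset.exists_mem_eq_sup
    (Finset.univ : Finset (Fin (r + 1) × Fin (r + 1))) ⟨(0, 0), Finset.mem_univ _⟩
    (fun p => (mnr z z' p.1 p.2).natAbs)
  have hdmJ : dm z z' ≤ J := by
    have h1 : dm z z' = (mnr z z' pp.1 pp.2).natAbs := hpp
    rw [h1]
    have h2 := abs_mul_le' (cv_abs hcB hx pp.1) (cv_abs hcB hy pp.2)
    have h3 := abs_mul_le' (cv_abs hcB hx pp.2) (cv_abs hcB hy pp.1)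
    have h4 : |mnr z z' pp.1 pp.2| ≤ 2 * (B : ℤ) ^ 2 := by
      rw [mnr]
      refine (abs_sub _ _).trans ?_
      rw [hz, hz']
      nlinarith
    have h5 : (2 : ℤ) * B ^ 2 ≤ J := by exact_mod_cast hJ
    rw [Int.abs_eq_natAbs] at h4
    have h6 := h4.trans h5
    exact_mod_cast h6
  -- the map
  let Φ : ZMod Q × ZMod Q → ℤ × (Fin r → ℤ) := fun q => (mq Q z z' q 0, ww Q c x y q)
  have hmaps : ∀ q ∈ S, Φ q ∈ (Finset.Icc (-(c : ℤ)) c) ×ˢ T := by
    intro q hq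
    have he := (mem q hq).1
    rw [Finset.mem_product]
    refine ⟨?_, ?_⟩
    · rw [Finset.mem_Icc]
      exact abs_le.1 (m0_le hJ1 hA hQ q he)
    · rw [hT, TW, Finset.mem_filter, vb, Fintype.mem_piFinset]
      have hw := w_le hA hBA hcB hQ hy q he
      refine ⟨fun i => ?_, hw, nz q hq,
        mnr_le hA hc1 hcB hQ hD hx hy q he, d3_le hA hcB hQ hD hx hy q he⟩
      rw [Finset.mem_Icc]
      apply abs_le.1
      refine (hw i).trans ?_
      push_cast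
      have h1 := v_le hx hy i
      have h2 : (c : ℤ) * |x i - y i| ≤ c * (2 * B) :=
        mul_le_mul_of_nonneg_left h1 (Nat.cast_nonneg _)
      linarith
  have hfib : ∀ b ∈ (Finset.Icc (-(c : ℤ)) c) ×ˢ T,
      (((S.filter fun q => Φ q = b).card : ℝ)) * dm z z' ≤ 9 * (J : ℝ) ^ 2 := by
    intro b _
    rcases (S.filter fun q => Φ q = b).eq_empty_or_nonempty with he | ⟨q₁, hq₁⟩
    · rw [he, Finset.card_empty]
      push_cast
      rw [zero_mul]
      positivity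
    rw [Finset.mem_filter] at hq₁
    -- the vector m is the same
    have hm : ∀ q ∈ S.filter (fun q => Φ q = b), ∀ p, mq Q z z' q p = mq Q z z' q₁ p := by
      intro q hq p
      rw [Finset.mem_filter] at hq
      have h1 : Φ q = Φ q₁ := hq.2.trans hq₁.2.symm
      have h0 : mq Q z z' q 0 = mq Q z z' q₁ 0 := congrArg Prod.fst h1
      have hw : ww Q c x y q = ww Q c x y q₁ := congrArg Prod.snd h1
      refine Fin.cases h0 (fun i => ?_) p
      have h2 := congrFun hw i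
      rw [ww, ww] at h2
      have hc0 : (c : ℤ) ≠ 0 := by
        have : 0 < c := hc1
        exact_mod_cast this.ne'
      have h3 : (c : ℤ) * mq Q z z' q i.succ = c * mq Q z z' q₁ i.succ := by
        have h4 : mq Q (cv (c : ℤ) x) (cv (c : ℤ) y) q 0 =
          mq Q (cv (c : ℤ) x) (cv (c : ℤ) y) q₁ 0 := h0
        rw [h4] at h2
        linarith
      exact mul_left_cancel₀ hc0 h3
    obtain ⟨hfin, hcard⟩ := hCNT (z pp.1) (z' pp.1) (z pp.2) (z' pp.2) (dm z z') J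
      ((Q : ℝ) * mq Q z z' q₁ pp.1) ((Q : ℝ) * mq Q z z' q₁ pp.2)
      (by
        have h1 : dm z z' = (mnr z z' pp.1 pp.2).natAbs := hpp
        rw [h1, mnr]) hdm1 hdmJ
    refine le_trans (mul_le_mul_of_nonneg_right ?_ (Nat.cast_nonneg _)) hcard
    have h1 : (S.filter fun q => Φ q = b).card ≤ {q : ℤ × ℤ |
        |(q.1 * z pp.1 + q.2 * z' pp.1 : ℝ) - (Q : ℝ) * mq Q z z' q₁ pp.1| < J ∧
        |(q.1 * z pp.2 + q.2 * z' pp.2 : ℝ) - (Q : ℝ) * mq Q z z' q₁ pp.2| < J}.ncard := by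
      rw [← Set.ncard_coe_finset]
      refine Set.ncard_le_ncard_of_injOn (fun q => (q.1.valMinAbs, q.2.valMinAbs)) ?_ ?_ hfin
      · intro q hq
        have hq' : q ∈ S.filter (fun q => Φ q = b) := hq
        have hqS := (Finset.mem_filter.1 hq').1
        have he := (mem q hqS).1
        have aux : ∀ p, |((q.1.valMinAbs : ℝ) * z p + (q.2.valMinAbs : ℝ) * z' p) -
            (Q : ℝ) * mq Q z z' q₁ p| < J := by
          intro p
          have h2 := mq_spec Q z z' q p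
          rw [hm q hq' p] at h2
          have h3 : ((q.1.valMinAbs : ℝ) * z p + (q.2.valMinAbs : ℝ) * z' p) -
            (Q : ℝ) * mq Q z z' q₁ p = ((ep Q z z' q p : ℤ) : ℝ) := by
            have h4 : ((q.1.valMinAbs * z p + q.2.valMinAbs * z' p : ℤ) : ℝ) =
              ((Q * mq Q z z' q₁ p + ep Q z z' q p : ℤ) : ℝ) := by rw [h2]
            push_cast at h4
            linarith
          rw [h3, ← Int.cast_abs]
          have h5 := he p
          exact_mod_cast h5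
        exact ⟨aux pp.1, aux pp.2⟩
      · intro q _ q' _ h
        have h1 := congrArg Prod.fst h
        have h2 := congrArg Prod.snd h
        exact Prod.ext (ZMod.injective_valMinAbs h1) (ZMod.injective_valMinAbs h2)
    exact_mod_cast h1
  have hsum : (S.card : ℝ) * dm z z' ≤ (2 * c + 1) * (T.card : ℝ) * (9 * (J : ℝ) ^ 2) := by
    rw [Finset.card_eq_sum_card_fiberwise (f := Φ) (t := (Finset.Icc (-(c : ℤ)) c) ×ˢ T)
      (fun q hq => hmaps q hq)]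
    push_cast
    rw [Finset.sum_mul]
    refine (Finset.sum_le_sum hfib).trans ?_
    rw [Finset.sum_const, nsmul_eq_mul, Finset.card_product, Int.card_Icc]
    have h1 : ((c : ℤ) + 1 - -(c : ℤ)).toNat = 2 * c + 1 := by omega
    rw [h1]
    push_cast
    exact le_rfl
  have hdmR : 2 * (A : ℝ) ≤ 3 * dm z z' := by exact_mod_cast hdm
  have hT0 : (0 : ℝ) ≤ (T.card : ℝ) * (J : ℝ) ^ 2 := by positivity
  have hS0 : (0 : ℝ) ≤ (S.card : ℝ) := Nat.cast_nonneg _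
  have h1 : (S.card : ℝ) * (2 * A) ≤ S.card * (3 * dm z z') :=
    mul_le_mul_of_nonneg_left hdmR hS0
  have hc0 : (0 : ℝ) ≤ c := Nat.cast_nonneg _
  nlinarith [mul_nonneg hc0 hT0]

end Pool.Agent.H31.HFS
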